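import Pool.Agent.H36.ENR.Stmts2

/-!
# Row H9M (helper93)
-/

set_option autoImplicit false

namespace Pool.ENR

theorem h9m_thm (hDED : DEDStmt) : H9MStmt := by
  intro F _ φ n c hn hn0 hc
  obtain ⟨x, hx⟩ := hDED F φ n (fun l => ∏ i ∈ Finset.range l, (φ ^ i) c) hn hn0 (by simp)
  refine ⟨_, hx, ?_⟩
  have hstep : ∀ l : ℕ, c * φ ((∏ i ∈ Finset.range l, (φ ^ i) c) * (φ ^ l) x) =
      (∏ i ∈ Finset.range (l + 1), (φ ^ i) c) * (φ ^ (l + 1)) x := by
    intro l
    have h1 : ∀ (j : ℕ) (w : F), φ ((φ ^ j) w) = (φ ^ (j + 1)) w := by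
      intro j w
      rw [pow_succ']
      rfl
    rw [map_mul, map_prod, h1, Finset.prod_range_succ']
    simp only [h1]
    have h2 : (φ ^ 0) c = c := rfl
    rw [h2]
    ring
  rw [map_sum, Finset.mul_sum, Finset.sum_congr rfl (fun l _ => hstep l)]
  have h3 := Finset.sum_range_succ (fun l => (∏ i ∈ Finset.range l, (φ ^ i) c) * (φ ^ l) x) n
  have h4 := Finset.sum_range_succ' (fun l => (∏ i ∈ Finset.range l, (φ ^ i) c) * (φ ^ l) x) n
  have h5 : (φ ^ n) x = x := by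
    rw [← hn, pow_orderOf_eq_one]
    rfl
  have h6 : (φ ^ 0) x = x := rfl
  rw [hc, h5] at h3
  rw [Finset.prod_range_zero, h6] at h4
  rw [h3] at h4
  linear_combination -h4

end Pool.ENR
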